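import Pool.Agent.X155.ClassTwo

/-! MP_82b5c7_al, Q1: a semi-rational group of order `243` whose absolute center contains an
element of order `3`. -/

namespace Pool.Agent.Results.MP_82b5c7_al.SemirationalAbsoluteCenter

/-- `N_{w,G}(g)`: the number of `r`-tuples of elements of `G` at which the word `w` takes the
value `g`. -/
noncomputable def wordCount {G : Type} [Group G] {r : ℕ} (w : FreeGroup (Fin r)) (g : G) : ℕ :=
  Nat.card {p : Fin r → G // FreeGroup.lift p w = g}

/-- `G` is semi-rational, by the criterion of Amit and Vishne: for every word `w` in any number of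
variables, `N_{w,G}` takes the same value at any two elements which generate the same cyclic
subgroup. -/
def SemiRational (G : Type) [Group G] : Prop :=
  ∀ (r : ℕ) (w : FreeGroup (Fin r)) (g h : G),
    Subgroup.zpowers g = Subgroup.zpowers h → wordCount w g = wordCount w h

theorem result : ∃ (G : Type) (_ : Group G), Nat.card G = 243 ∧ SemiRational G ∧
    ∃ z : G, (∀ α : G ≃* G, α z = z) ∧ orderOf z = 3 := by
  refine ⟨X155.ClassTwo.G, inferInstance, ?_, ?_, ⟨(9, 0)⟩, X155.ClassTwo.fixed, ?_⟩
  · rw [Nat.card_congr X155.ClassTwo.gEquiv]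
    simp
  · intro r w g h hgh
    obtain ⟨k, l, hkl, rfl⟩ := X155.ClassTwo.zpowers_eq hgh
    exact (X155.ClassTwo.count_pow hkl w g).symm
  · refine orderOf_eq_prime ?_ ?_
    · apply X155.ClassTwo.G.ext
      rw [X155.ClassTwo.pow_v, X155.ClassTwo.one_v]
      decide
    · intro h
      have := congrArg X155.ClassTwo.G.v h
      rw [X155.ClassTwo.one_v] at this
      revert this
      decide

end Pool.Agent.Results.MP_82b5c7_al.SemirationalAbsoluteCenter
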